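import Mathlib

/-!
Classes of group representations definable by formulas of action: over every non-zero ring there is
an abstract class of representations which is axiomatizable, saturated and right hereditary but is
not defined by any set of formulas of action.
-/

namespace Pool.Agent.Results.MP_98e941_al.NotDefinableByAction

/-! ### Representations -/

/-- A representation `(V, G)` over the ring `K`: a `K`-module `V` on which a group `G` acts (from the
right) by automorphisms of the `K`-module; `act v g` is `v ∘ g`. -/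
structure Rep (K : Type) [Ring K] where
  /-- the module -/
  V : Type
  /-- the group -/
  G : Type
  [addV : AddCommGroup V]
  [modV : Module K V]
  [grpG : Group G]
  /-- the action -/
  act : V → G → V
  act_add : ∀ v w g, act (v + w) g = act v g + act w g
  act_smul : ∀ (k : K) v g, act (k • v) g = k • act v g
  act_one : ∀ v, act v 1 = v
  act_mul : ∀ v g h, act v (g * h) = act (act v g) h

attribute [instance] Rep.addV Rep.modV Rep.grpG

variable {K : Type} [Ring K]

namespace Rep

/-- The kernel `N` of the action. -/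
def ker (ρ : Rep K) : Subgroup ρ.G where
  carrier := {g | ∀ v, ρ.act v g = v}
  mul_mem' := by
    intro a b ha hb v
    rw [ρ.act_mul, ha v, hb v]
  one_mem' := ρ.act_one
  inv_mem' := by
    intro a ha v
    have h := ρ.act_mul v a a⁻¹
    rw [mul_inv_cancel, ρ.act_one, ha v] at h
    exact h.symm

instance (ρ : Rep K) : ρ.ker.Normal := by
  refine ⟨fun n hn g v => ?_⟩
  have hn' : ∀ v, ρ.act v n = v := hn
  rw [ρ.act_mul, ρ.act_mul, hn', ← ρ.act_mul, mul_inv_cancel, ρ.act_one]

/-- The faithful representation `(V, G / N)`. -/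
def faithful (ρ : Rep K) : Rep K where
  V := ρ.V
  G := ρ.G ⧸ ρ.ker
  act v g := Quotient.liftOn g (fun g => ρ.act v g) (by
    intro a b hab
    have h : a⁻¹ * b ∈ ρ.ker := QuotientGroup.leftRel_apply.1 hab
    have h1 := h (ρ.act v a)
    rw [← ρ.act_mul, mul_inv_cancel_left] at h1
    exact h1.symm)
  act_add v w g := by
    induction g using Quotient.inductionOn with
    | h g => exact ρ.act_add v w g
  act_smul k v g := by
    induction g using Quotient.inductionOn with
    | h g => exact ρ.act_smul k v g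
  act_one := ρ.act_one
  act_mul v g h := by
    induction g using Quotient.inductionOn with
    | h g =>
    induction h using Quotient.inductionOn with
    | h h => exact ρ.act_mul v g h

/-- The subrepresentation `(V, H)` for a subgroup `H` of `G`. -/
def sub (ρ : Rep K) (H : Subgroup ρ.G) : Rep K where
  V := ρ.V
  G := H
  act v g := ρ.act v g
  act_add v w g := ρ.act_add v w g
  act_smul k v g := ρ.act_smul k v g
  act_one := ρ.act_one
  act_mul v g h := ρ.act_mul v g h

/-- Isomorphism of representations. -/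
def Iso (ρ σ : Rep K) : Prop :=
  ∃ (e : ρ.V ≃ₗ[K] σ.V) (f : ρ.G ≃* σ.G), ∀ v g, e (ρ.act v g) = σ.act (e v) (f g)

end Rep

/-! ### Formulas -/

/-- First-order formulas of the logic of representations, with module variables `X` and group
variables `Y`. An element `u` of the group algebra `K F`, `F = FreeGroup Y`, is given as a finitely
supported function `F →₀ K`. -/
inductive Formula (K : Type) [Ring K] (X Y : Type) : Type
  /-- `x_1 ∘ u_1 + ⋯ + x_n ∘ u_n ≡ 0` -/
  | act (l : List (X × (FreeGroup Y →₀ K)))
  /-- `f ≡ 1` -/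
  | grp (f : FreeGroup Y)
  | and (φ ψ : Formula K X Y)
  | or (φ ψ : Formula K X Y)
  | not (φ : Formula K X Y)
  | allX (x : X) (φ : Formula K X Y)
  | exX (x : X) (φ : Formula K X Y)
  | allY (y : Y) (φ : Formula K X Y)
  | exY (y : Y) (φ : Formula K X Y)

/-- The element `v ∘ u` for `u` in the group algebra of the free group, where the group variables
have the values `β`. -/
noncomputable def actAlg {Y : Type} (ρ : Rep K) (β : Y → ρ.G) (v : ρ.V)
    (u : FreeGroup Y →₀ K) : ρ.V :=
  u.sum fun f k => k • ρ.act v (FreeGroup.lift β f)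

open Classical in
/-- The formula is satisfied in `ρ` under the assignments `α : X → V`, `β : Y → G`. -/
noncomputable def Sat {X Y : Type} (ρ : Rep K) : Formula K X Y → (X → ρ.V) → (Y → ρ.G) → Prop
  | .act l, α, β => (l.map fun p => actAlg ρ β (α p.1) p.2).sum = 0
  | .grp f, _, β => FreeGroup.lift β f = 1
  | .and φ ψ, α, β => Sat ρ φ α β ∧ Sat ρ ψ α β
  | .or φ ψ, α, β => Sat ρ φ α β ∨ Sat ρ ψ α β
  | .not φ, α, β => ¬ Sat ρ φ α β
  | .allX x φ, α, β => ∀ v : ρ.V, Sat ρ φ (Function.update α x v) β
  | .exX x φ, α, β => ∃ v : ρ.V, Sat ρ φ (Function.update α x v) β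
  | .allY y φ, α, β => ∀ g : ρ.G, Sat ρ φ α (Function.update β y g)
  | .exY y φ, α, β => ∃ g : ρ.G, Sat ρ φ α (Function.update β y g)

/-- A formula holds in `ρ` if it is satisfied under every assignment. -/
def Holds {X Y : Type} (ρ : Rep K) (φ : Formula K X Y) : Prop := ∀ α β, Sat ρ φ α β

/-- The formulas of action: only elementary formulas of the first type, and no quantification over
group variables. -/
def IsAction {X Y : Type} : Formula K X Y → Prop
  | .act _ => True
  | .grp _ => False
  | .and φ ψ => IsAction φ ∧ IsAction ψ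
  | .or φ ψ => IsAction φ ∧ IsAction ψ
  | .not φ => IsAction φ
  | .allX _ φ => IsAction φ
  | .exX _ φ => IsAction φ
  | .allY _ _ => False
  | .exY _ _ => False

/-- `T'`: the class of all representations in which all formulas of `T` hold. -/
def models {X Y : Type} (T : Set (Formula K X Y)) : Set (Rep K) := {ρ | ∀ φ ∈ T, Holds ρ φ}

/-- An abstract class: closed under isomorphism. -/
def Abstract (C : Set (Rep K)) : Prop := ∀ ρ σ : Rep K, ρ.Iso σ → ρ ∈ C → σ ∈ C

/-- `ρ` lies in the class if and only if its faithful representation does. -/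
def Saturated (C : Set (Rep K)) : Prop := ∀ ρ : Rep K, ρ ∈ C ↔ ρ.faithful ∈ C

/-- If `(V, G)` lies in the class, so does `(V, H)` for every subgroup `H` of `G`. -/
def RightHereditary (C : Set (Rep K)) : Prop :=
  ∀ ρ ∈ C, ∀ H : Subgroup ρ.G, ρ.sub H ∈ C

/-- The class is defined by some set of first-order formulas. -/
def Axiomatizable (X Y : Type) (C : Set (Rep K)) : Prop :=
  ∃ T : Set (Formula K X Y), C = models T

/-- The class is defined by some set of formulas of action. -/
def DefinedByAction (X Y : Type) (C : Set (Rep K)) : Prop :=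
  ∃ T : Set (Formula K X Y), (∀ φ ∈ T, IsAction φ) ∧ C = models T

/-! ### Formulas of action are local -/

section Local

variable {X Y : Type}

theorem lift_local (f : FreeGroup Y) : ∃ S : Set Y, S.Finite ∧
    ∀ (G : Type) [Group G] (β β' : Y → G), (∀ y ∈ S, β y = β' y) →
      FreeGroup.lift β f = FreeGroup.lift β' f := by
  induction f using FreeGroup.induction_on with
  | C1 => exact ⟨∅, Set.finite_empty, fun G _ β β' _ => by simp⟩
  | of y =>
    exact ⟨{y}, Set.finite_singleton y, fun G _ β β' h => by
      rw [FreeGroup.lift_apply_of, FreeGroup.lift_apply_of]; exact h y rfl⟩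
  | inv_of y ih =>
    obtain ⟨S, hS, h⟩ := ih
    exact ⟨S, hS, fun G _ β β' hb => by rw [map_inv, map_inv, h G β β' hb]⟩
  | mul x y hx hy =>
    obtain ⟨S, hS, h⟩ := hx
    obtain ⟨S', hS', h'⟩ := hy
    exact ⟨S ∪ S', hS.union hS', fun G _ β β' hb => by
      rw [map_mul, map_mul, h G β β' fun y hy => hb y (Or.inl hy),
        h' G β β' fun y hy => hb y (Or.inr hy)]⟩

theorem actAlg_local (u : FreeGroup Y →₀ K) : ∃ S : Set Y, S.Finite ∧
    ∀ (ρ : Rep K) (β β' : Y → ρ.G), (∀ y ∈ S, β y = β' y) →
      ∀ v, actAlg ρ β v u = actAlg ρ β' v u := by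
  choose S hS h using lift_local (Y := Y)
  refine ⟨⋃ f ∈ u.support, S f, u.support.finite_toSet.biUnion fun f _ => hS f, ?_⟩
  intro ρ β β' hb v
  unfold actAlg
  apply Finsupp.sum_congr
  intro f hf
  rw [h f ρ.G β β' fun y hy => hb y (Set.mem_biUnion hf hy)]

/-- satisfaction depends on finitely many values of the group variables -/
theorem sat_local (φ : Formula K X Y) (hφ : IsAction φ) : ∃ S : Set Y, S.Finite ∧
    ∀ (ρ : Rep K) (β β' : Y → ρ.G), (∀ y ∈ S, β y = β' y) →
      ∀ α, Sat ρ φ α β ↔ Sat ρ φ α β' := by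
  induction φ with
  | act l =>
    choose S hS h using actAlg_local (K := K) (Y := Y)
    refine ⟨⋃ p ∈ {p | p ∈ l}, S p.2, (List.finite_toSet l).biUnion fun p _ => hS p.2, ?_⟩
    intro ρ β β' hb α
    show (l.map fun p => actAlg ρ β (α p.1) p.2).sum = 0 ↔
      (l.map fun p => actAlg ρ β' (α p.1) p.2).sum = 0
    have : (l.map fun p => actAlg ρ β (α p.1) p.2) = l.map fun p => actAlg ρ β' (α p.1) p.2 := by
      apply List.map_congr_left
      intro p hp
      exact h p.2 ρ β β' (fun y hy => hb y (Set.mem_biUnion hp hy)) _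
    rw [this]
  | grp f => exact hφ.elim
  | and φ ψ ih1 ih2 =>
    obtain ⟨S, hS, h⟩ := ih1 hφ.1
    obtain ⟨S', hS', h'⟩ := ih2 hφ.2
    refine ⟨S ∪ S', hS.union hS', fun ρ β β' hb α => ?_⟩
    exact and_congr (h ρ β β' (fun y hy => hb y (Or.inl hy)) α)
      (h' ρ β β' (fun y hy => hb y (Or.inr hy)) α)
  | or φ ψ ih1 ih2 =>
    obtain ⟨S, hS, h⟩ := ih1 hφ.1
    obtain ⟨S', hS', h'⟩ := ih2 hφ.2
    refine ⟨S ∪ S', hS.union hS', fun ρ β β' hb α => ?_⟩
    exact or_congr (h ρ β β' (fun y hy => hb y (Or.inl hy)) α)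
      (h' ρ β β' (fun y hy => hb y (Or.inr hy)) α)
  | not φ ih =>
    obtain ⟨S, hS, h⟩ := ih hφ
    exact ⟨S, hS, fun ρ β β' hb α => not_congr (h ρ β β' hb α)⟩
  | allX x φ ih =>
    obtain ⟨S, hS, h⟩ := ih hφ
    exact ⟨S, hS, fun ρ β β' hb α => forall_congr' fun v => h ρ β β' hb _⟩
  | exX x φ ih =>
    obtain ⟨S, hS, h⟩ := ih hφ
    exact ⟨S, hS, fun ρ β β' hb α => exists_congr fun v => h ρ β β' hb _⟩
  | allY y φ ih => exact hφ.elim
  | exY y φ ih => exact hφ.elim

/-- satisfaction of formulas of action in `(V, H)` and in `(V, G)` -/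
theorem sat_sub (ρ : Rep K) (H : Subgroup ρ.G) (φ : Formula K X Y) (hφ : IsAction φ)
    (α : X → ρ.V) (β : Y → H) :
    Sat (ρ.sub H) φ α β ↔ Sat ρ φ α (fun y => (β y : ρ.G)) := by
  have hlift : ∀ f : FreeGroup Y, ((FreeGroup.lift β f : H) : ρ.G) =
      FreeGroup.lift (fun y => (β y : ρ.G)) f := by
    intro f
    have : H.subtype.comp (FreeGroup.lift β) = FreeGroup.lift (fun y => (β y : ρ.G)) := by
      apply FreeGroup.ext_hom
      intro y
      simp
    exact DFunLike.congr_fun this f
  induction φ generalizing α with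
  | act l =>
    have : ∀ p : X × (FreeGroup Y →₀ K), actAlg (ρ.sub H) β (α p.1) p.2 =
        actAlg ρ (fun y => (β y : ρ.G)) (α p.1) p.2 := by
      intro p
      unfold actAlg
      apply Finsupp.sum_congr
      intro f _
      show p.2 f • ρ.act (α p.1) ((FreeGroup.lift β f : H) : ρ.G) = _
      rw [hlift]
    show (l.map fun p => actAlg (ρ.sub H) β (α p.1) p.2).sum = 0 ↔
      (l.map fun p => actAlg ρ (fun y => (β y : ρ.G)) (α p.1) p.2).sum = 0
    have h2 : (l.map fun p => actAlg (ρ.sub H) β (α p.1) p.2) =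
        l.map fun p => actAlg ρ (fun y => (β y : ρ.G)) (α p.1) p.2 :=
      List.map_congr_left fun p _ => this p
    rw [h2]
    exact Iff.rfl
  | grp f => exact hφ.elim
  | and φ ψ ih1 ih2 => exact and_congr (ih1 hφ.1 α) (ih2 hφ.2 α)
  | or φ ψ ih1 ih2 => exact or_congr (ih1 hφ.1 α) (ih2 hφ.2 α)
  | not φ ih => exact not_congr (ih hφ α)
  | allX x φ ih => exact forall_congr' fun v => ih hφ _
  | exX x φ ih => exact exists_congr fun v => ih hφ _
  | allY y φ ih => exact hφ.elim
  | exY y φ ih => exact hφ.elim

end Local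

/-! ### The class and the counterexample -/

/-- The class of all representations with a non-zero vector fixed by the group. -/
def FixedClass (K : Type) [Ring K] : Set (Rep K) :=
  {ρ | ∃ v : ρ.V, v ≠ 0 ∧ ∀ g, ρ.act v g = v}

theorem abstract_fixed : Abstract (FixedClass K) := by
  rintro ρ σ ⟨e, f, hef⟩ ⟨v, hv, hfix⟩
  refine ⟨e v, ?_, fun g => ?_⟩
  · intro h
    exact hv (e.injective (by rw [h, map_zero]))
  · have := hef v (f.symm g)
    rw [hfix, f.apply_symm_apply] at this
    exact this.symm

theorem saturated_fixed : Saturated (FixedClass K) := by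
  intro ρ
  constructor
  · rintro ⟨v, hv, hfix⟩
    refine ⟨v, hv, fun g => ?_⟩
    induction g using Quotient.inductionOn with
    | h g => exact hfix g
  · rintro ⟨v, hv, hfix⟩
    exact ⟨v, hv, fun g => hfix (QuotientGroup.mk g)⟩

theorem hereditary_fixed : RightHereditary (FixedClass K) := by
  rintro ρ ⟨v, hv, hfix⟩ H
  exact ⟨v, hv, fun (g : H) => hfix (g : ρ.G)⟩

theorem axiomatizable_fixed (X Y : Type) [Infinite X] [Infinite Y] :
    Axiomatizable X Y (FixedClass K) := by
  classical
  obtain ⟨x⟩ : Nonempty X := inferInstance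
  obtain ⟨y⟩ : Nonempty Y := inferInstance
  -- `∃ x, ¬ (x ≡ 0) ∧ ∀ y, x ∘ y - x ≡ 0`
  let φ : Formula K X Y := .exX x (.and (.not (.act [(x, Finsupp.single 1 1)]))
    (.allY y (.act [(x, Finsupp.single (FreeGroup.of y) 1), (x, Finsupp.single 1 (-1))])))
  have hs : ∀ (ρ : Rep K) (β : Y → ρ.G) (v : ρ.V) (f : FreeGroup Y) (k : K),
      actAlg ρ β v (Finsupp.single f k) = k • ρ.act v (FreeGroup.lift β f) := by
    intro ρ β v f k
    unfold actAlg
    rw [Finsupp.sum_single_index]
    rw [zero_smul]
  refine ⟨{φ}, ?_⟩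
  ext ρ
  constructor
  · rintro ⟨v, hv, hfix⟩ ψ hψ
    rw [Set.mem_singleton_iff] at hψ
    subst hψ
    intro α β
    refine ⟨v, ?_, fun g => ?_⟩
    · show ¬ ([(x, Finsupp.single 1 1)].map fun p : X × (FreeGroup Y →₀ K) =>
        actAlg ρ β (Function.update α x v p.1) p.2).sum = 0
      rw [List.map_singleton, List.sum_singleton, hs, Function.update_self, map_one, ρ.act_one,
        one_smul]
      exact hv
    · show ([(x, Finsupp.single (FreeGroup.of y) 1), (x, Finsupp.single 1 (-1))].map
        fun p : X × (FreeGroup Y →₀ K) =>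
          actAlg ρ (Function.update β y g) (Function.update α x v p.1) p.2).sum = 0
      simp only [List.map_cons, List.map_nil, List.sum_cons, List.sum_nil, hs,
        Function.update_self, map_one, ρ.act_one, one_smul, hfix, neg_smul, add_zero]
      exact add_neg_cancel v
  · intro h
    have h1 : Sat ρ φ (fun _ => 0) (fun _ => 1) := h φ rfl _ _
    obtain ⟨v, hv1, hv2⟩ := h1
    refine ⟨v, ?_, fun g => ?_⟩
    · intro hv0
      apply hv1
      show ([(x, Finsupp.single 1 1)].map fun p : X × (FreeGroup Y →₀ K) =>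
        actAlg ρ (fun _ => 1) (Function.update (fun _ => (0 : ρ.V)) x v p.1) p.2).sum = 0
      rw [List.map_singleton, List.sum_singleton, hs, Function.update_self, map_one, ρ.act_one,
        one_smul]
      exact hv0
    · have h2 : ([(x, Finsupp.single (FreeGroup.of y) 1), (x, Finsupp.single 1 (-1))].map
        fun p : X × (FreeGroup Y →₀ K) =>
          actAlg ρ (Function.update (fun _ => 1) y g)
            (Function.update (fun _ => (0 : ρ.V)) x v p.1) p.2).sum = 0 := hv2 g
      simp only [List.map_cons, List.map_nil, List.sum_cons, List.sum_nil, hs,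
        Function.update_self, map_one, ρ.act_one, one_smul, neg_smul, add_zero,
        FreeGroup.lift_apply_of] at h2
      exact add_neg_eq_zero.1 h2

/-- the locally finite group -/
abbrev E : Type := Multiplicative (ℕ →₀ ZMod 2)

/-- right translation -/
noncomputable def rAct (v : E →₀ K) (g : E) : E →₀ K := Finsupp.mapDomain (fun x => x * g) v

/-- the right regular representation `(K[E], E)` -/
noncomputable def reg (K : Type) [Ring K] : Rep K where
  V := E →₀ K
  G := E
  act := rAct
  act_add v w g := Finsupp.mapDomain_add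
  act_smul k v g := Finsupp.mapDomain_smul k v
  act_one v := by
    have : (fun x : E => x * 1) = id := by funext x; simp
    unfold rAct
    rw [this, Finsupp.mapDomain_id]
  act_mul v g h := by
    unfold rAct
    rw [← Finsupp.mapDomain_comp]
    congr 1
    funext x
    exact (mul_assoc x g h).symm

theorem rAct_apply (v : E →₀ K) (g x : E) : rAct v g x = v (x * g⁻¹) := by
  show Finsupp.mapDomain (fun x => x * g) v x = _
  have h := Finsupp.mapDomain_apply (mul_left_injective g) v (x * g⁻¹)
  simp only [inv_mul_cancel_right] at h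
  exact h

theorem reg_not_mem : reg K ∉ FixedClass K := by
  intro h
  obtain ⟨v, hv, hfix⟩ : ∃ v : E →₀ K, v ≠ 0 ∧ ∀ g, rAct v g = v := h
  obtain ⟨x, hx⟩ := Finsupp.ne_iff.1 hv
  rw [Finsupp.zero_apply] at hx
  -- the support would be everything
  have hall : ∀ z : E, z ∈ v.support := by
    intro z
    rw [Finsupp.mem_support_iff]
    have h1 := rAct_apply v (x⁻¹ * z) z
    rw [hfix] at h1
    have h2 : z * (x⁻¹ * z)⁻¹ = x := by
      rw [mul_inv_rev, inv_inv, mul_inv_cancel_left]
    rw [h2] at h1
    rw [h1]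
    exact hx
  have hinf : Infinite E := inferInstanceAs (Infinite (ℕ →₀ ZMod 2))
  exact Set.infinite_univ ((v.support.finite_toSet).subset fun z _ => hall z)

/-- the finite subgroup of elements supported below `n` -/
def Hn (n : ℕ) : Subgroup E where
  carrier := {g | ∀ k, n ≤ k → (Multiplicative.toAdd g : ℕ →₀ ZMod 2) k = 0}
  mul_mem' := by
    intro a b ha hb k hk
    show (Multiplicative.toAdd a + Multiplicative.toAdd b : ℕ →₀ ZMod 2) k = 0
    rw [Finsupp.add_apply, ha k hk, hb k hk, add_zero]
  one_mem' := fun _ _ => rfl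
  inv_mem' := by
    intro a ha k hk
    show (-(Multiplicative.toAdd a) : ℕ →₀ ZMod 2) k = 0
    rw [Finsupp.neg_apply, ha k hk, neg_zero]

theorem Hn_finite (n : ℕ) : (Hn n : Set E).Finite := by
  refine Set.Finite.of_finite_image (f := fun g : E => fun i : Fin n =>
    (Multiplicative.toAdd g : ℕ →₀ ZMod 2) i) (Set.toFinite _) ?_
  intro a ha b hb hab
  apply Multiplicative.toAdd.injective
  ext k
  by_cases hk : k < n
  · exact congrFun hab ⟨k, hk⟩
  · exact (ha k (by omega)).trans (hb k (by omega)).symm

theorem exists_Hn (S : Set E) (hS : S.Finite) : ∃ n, S ⊆ Hn n := by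
  induction S, hS using Set.Finite.induction_on with
  | empty => exact ⟨0, Set.empty_subset _⟩
  | insert _ _ ih =>
    rename_i a S _ _
    obtain ⟨n, hn⟩ := ih
    obtain ⟨m, hm⟩ : ∃ m, a ∈ Hn m := by
      obtain ⟨m, hm⟩ := (Multiplicative.toAdd a : ℕ →₀ ZMod 2).support.exists_nat_subset_range
      refine ⟨m, fun k hk => ?_⟩
      by_contra hne
      have := hm (Finsupp.mem_support_iff.2 hne)
      rw [Finset.mem_range] at this
      omega
    refine ⟨max m n, ?_⟩
    rintro b (rfl | hb)
    · exact fun k hk => hm k ((le_max_left _ _).trans hk)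
    · exact fun k hk => hn hb k ((le_max_right _ _).trans hk)

/-- finite subgroups have non-zero fixed vectors -/
theorem sub_mem [Nontrivial K] (n : ℕ) : (reg K).sub (Hn n) ∈ FixedClass K := by
  classical
  have hfin := Hn_finite n
  let v : E →₀ K := Finsupp.indicator hfin.toFinset (fun _ _ => 1)
  have hv : ∀ x, v x = if x ∈ Hn n then 1 else 0 := by
    intro x
    rw [Finsupp.indicator_apply]
    simp
  have hne : v ≠ 0 := by
    intro h
    have h1 : v 1 = 0 := by rw [h]; rfl
    rw [hv, if_pos (Hn n).one_mem] at h1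
    exact one_ne_zero h1
  have hfix : ∀ g ∈ Hn n, rAct v g = v := by
    intro g hg
    apply Finsupp.ext
    intro x
    rw [rAct_apply, hv, hv]
    have : x * g⁻¹ ∈ Hn n ↔ x ∈ Hn n :=
      Subgroup.mul_mem_cancel_right _ ((Hn n).inv_mem hg)
    simp only [this]
  exact ⟨v, hne, fun (g : Hn n) => hfix g g.2⟩

/-- **Main theorem.** Over every non-zero ring `K` (and for all infinite sets `X`, `Y` of variables)
there is an abstract class of representations which is axiomatizable, saturated and right
hereditary, but is not defined by any set of formulas of action. -/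
theorem result (K : Type) [Ring K] [Nontrivial K] (X Y : Type) [Infinite X] [Infinite Y] :
    ∃ C : Set (Rep K), Abstract C ∧ Axiomatizable X Y C ∧ Saturated C ∧ RightHereditary C ∧
      ¬ DefinedByAction X Y C := by
  refine ⟨FixedClass K, abstract_fixed, axiomatizable_fixed X Y, saturated_fixed,
    hereditary_fixed, ?_⟩
  rintro ⟨T, hT, hC⟩
  apply reg_not_mem (K := K)
  rw [hC]
  intro φ hφ α β
  classical
  obtain ⟨S, hS, hloc⟩ := sat_local φ (hT φ hφ)
  obtain ⟨n, hn⟩ := exists_Hn (β '' S) (hS.image β)
  -- values outside `S` are replaced by `1`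
  let β' : Y → Hn n := fun y => if h : y ∈ S then ⟨β y, hn ⟨y, h, rfl⟩⟩ else 1
  have hβ : ∀ y ∈ S, β y = ((β' y : Hn n) : E) := by
    intro y hy
    simp only [β', dif_pos hy]
  have hmem : (reg K).sub (Hn n) ∈ models T := by rw [← hC]; exact sub_mem n
  have h1 : Sat ((reg K).sub (Hn n)) φ α β' := hmem φ hφ α β'
  rw [sat_sub (reg K) (Hn n) φ (hT φ hφ) α β'] at h1
  exact (hloc (reg K) β (fun y => ((β' y : Hn n) : E)) hβ α).2 h1

end Pool.Agent.Results.MP_98e941_al.NotDefinableByAction
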